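import Mathlib
import Pool.Agent.Q43.PR.Near
import Pool.Agent.W66.SA
import Pool.Agent.TH888.R.Base

set_option autoImplicit false

/-!
# Pairs of levels with different prime values
-/

namespace Pool.Agent.Q43.PR

open Finset Filter Topology MeasureTheory
open Pool.Agent.H305R2 (roughPart roughPart_prime SM SM_pos ff NN measurable_ff measurable_NN ff_nonneg
  ff_le_one)
open Pool.Agent.W66 (NN_div NN_bounds)
open Pool.Agent.W66S (shift_window)
open Pool.Agent.TH888.R (wt wt_nonneg wt_le_one)

/-- the event that the values at the levels `p` and `q` are different primes -/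
def Ev (b p q : ℕ) (t : ℝ) : Prop :=
  (roughPart p (NN (Real.log b * p + t))).Prime ∧ (roughPart q (NN (Real.log b * q + t))).Prime ∧
    roughPart p (NN (Real.log b * p + t)) ≠ roughPart q (NN (Real.log b * q + t))

lemma measurable_lev (b m : ℕ) : Measurable fun t : ℝ => roughPart m (NN (Real.log b * m + t)) :=
  (measurable_from_nat (f := fun n : ℕ => roughPart m n)).comp
    (measurable_NN.comp (measurable_id.const_add _))

lemma measurableSet_Ev (b p q : ℕ) : MeasurableSet {t | Ev b p q t} := by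
  have h1 := measurable_lev b p
  have h2 := measurable_lev b q
  have h3 : Measurable fun t : ℝ => (roughPart p (NN (Real.log b * p + t)),
    roughPart q (NN (Real.log b * q + t))) := h1.prodMk h2
  have e : {t | Ev b p q t} = (fun t : ℝ => (roughPart p (NN (Real.log b * p + t)),
    roughPart q (NN (Real.log b * q + t)))) ⁻¹' {x : ℕ × ℕ | x.1.Prime ∧ x.2.Prime ∧ x.1 ≠ x.2} := rfl
  rw [e]
  exact h3 (MeasurableSet.of_discrete)

/-- if the value at the level `q` comes from a shift by zeros then the two prime values are equal -/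
lemma rough_eq {b p q h N : ℕ} (hpq : p ≤ q) (hbq : b ≤ q) (h1 : (roughPart p N).Prime)
    (h2 : (roughPart q (b ^ h * N)).Prime) : roughPart q (b ^ h * N) = roughPart p N := by
  obtain ⟨h3, s, hs, he⟩ := roughPart_prime h2
  obtain ⟨h4, s', hs', he'⟩ := roughPart_prime h1
  set r := roughPart q (b ^ h * N) with hr
  set r' := roughPart p N with hr'
  have hd : r ∣ b ^ h * N := by rw [he]; exact dvd_mul_left _ _
  rcases (Nat.Prime.dvd_mul h2).1 hd with h5 | h5
  · have h6 := h2.dvd_of_dvd_pow h5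
    rcases Nat.eq_zero_or_pos b with hb | hb
    · subst hb
      rcases Nat.eq_zero_or_pos h with hh | hh
      · subst hh
        simp at h5
        exact absurd h5 h2.one_lt.ne'
      · rw [zero_pow (by omega), zero_mul] at he
        have := SM_pos hs
        have := h2.pos
        have h9 : 0 < s * r := by positivity
        omega
    · have := Nat.le_of_dvd hb h6
      omega
  · rw [he'] at h5
    rcases (Nat.Prime.dvd_mul h2).1 h5 with h6 | h6
    · have := hs'.2 r ((Nat.mem_primeFactorsList (SM_pos hs').ne').2 ⟨h2, h6⟩)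
      omega
    · exact (Nat.prime_dvd_prime_iff_eq h2 h1).1 h6

lemma Ev_near {b p q : ℕ} (hb : 2 ≤ b) (hpq : p ≤ q) (hbq : b ≤ q) {t : ℝ} (h : Ev b p q t) :
    ff p (Real.log b * p + t) * ff (p + (q - p)) ((Real.log b * p + t) + (q - p : ℕ) * Real.log b) *
      dd (b ^ (q - p)) (NN ((Real.log b * p + t) + (q - p : ℕ) * Real.log b)) = 1 := by
  obtain ⟨h1, h2, h3⟩ := h
  have e1 : p + (q - p) = q := by omega
  have e2 : (Real.log b * p + t) + (q - p : ℕ) * Real.log b = Real.log b * q + t := by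
    rw [Nat.cast_sub hpq]
    ring
  have hdiv := NN_div hb (Real.log b * p + t) (q - p)
  rw [e1, e2]
  rw [e2] at hdiv
  have h4 : ¬ NN (Real.log b * q + t) % b ^ (q - p) = 0 := by
    intro h5
    have h6 : b ^ (q - p) * NN (Real.log b * p + t) = NN (Real.log b * q + t) := by
      rw [← hdiv]
      exact Nat.mul_div_cancel' (Nat.dvd_of_mod_eq_zero h5)
    rw [← h6] at h2 h3
    exact h3 (rough_eq hpq hbq h1 h2).symm
  unfold ff dd
  rw [if_pos h1, if_pos h2, if_neg h4]
  norm_num

lemma Sh_lin (a a0 a1 : ℝ) (m : ℕ) : Pool.Agent.H447R2.ML.Sh a a0 a1 m (fun t => a * m + t)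
    (fun _ => 1) := by
  refine ⟨fun t _ => ?_, fun t _ => ?_, fun t _ => ?_⟩
  · rw [sub_self, abs_zero]; positivity
  · simpa using (hasDerivAt_id t).const_add (a * (m : ℝ))
  · rw [sub_self, abs_zero]; positivity

/-- a bound for the measure from a bound for the integral -/
lemma meas_le {f : ℝ → ℝ} {A : Set ℝ} {b0 c : ℝ} (hf : Measurable f) (h0 : ∀ t, 0 ≤ f t)
    (h1 : ∀ t, f t ≤ 1) (hA : ∀ t ∈ A, f t = 1) (hc : ∫ t in Set.Ioc b0 (b0 + 1), f t ≤ c) :
    (volume.restrict (Set.Ioc b0 (b0 + 1))) A ≤ ENNReal.ofReal c := by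
  have hint : Integrable f (volume.restrict (Set.Ioc b0 (b0 + 1))) := by
    refine Integrable.of_bound hf.aestronglyMeasurable 1 (Eventually.of_forall fun x => ?_)
    rw [Real.norm_of_nonneg (h0 x)]
    exact h1 x
  have h2 := mul_meas_ge_le_lintegral (μ := volume.restrict (Set.Ioc b0 (b0 + 1)))
    (f := fun x => ENNReal.ofReal (f x)) hf.ennreal_ofReal 1
  rw [one_mul] at h2
  have h3 : (volume.restrict (Set.Ioc b0 (b0 + 1))) A ≤ ∫⁻ t in Set.Ioc b0 (b0 + 1), ENNReal.ofReal (f t) := by
    refine le_trans (measure_mono ?_) h2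
    intro x hx
    show 1 ≤ ENNReal.ofReal (f x)
    rw [hA x hx]
    simp
  refine h3.trans ?_
  rw [← ofReal_integral_eq_lintegral_ofReal hint (Eventually.of_forall h0)]
  exact ENNReal.ofReal_le_ofReal hc

/-- large levels -/
lemma pair_large {b : ℕ} (hb : 2 ≤ b) (b0 : ℝ) : ∃ K : ℝ, 0 < K ∧ ∃ P : ℕ, ∀ p q : ℕ, P ≤ p → p < q →
    (volume.restrict (Set.Ioc b0 (b0 + 1))) {t | Ev b p q t} ≤ ENNReal.ofReal (K * (wt p * wt q)) := by
  have hlb : 0 < Real.log b := Real.log_pos (by exact_mod_cast hb)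
  obtain ⟨K1, hK1, hev⟩ := near_ne hb
  obtain ⟨P1, hP1⟩ := eventually_atTop.1 hev
  obtain ⟨K2, hK2, P2, h2⟩ := Pool.Agent.H447R2.ML.pair_bound_sh (a := Real.log b) (a0 := b0 - 1)
    (a1 := b0 + 2) (b0 := b0) (b1 := b0 + 1) hlb (by linarith) (by linarith)
  have hgap : ∀ᶠ q : ℕ in atTop, 64 / Real.log b * (Real.log q * Real.log (Real.log q)) ≤ q / 2 := by
    have h1 : ∀ᶠ x : ℝ in atTop, 64 / Real.log b * (Real.log x * Real.log (Real.log x)) ≤ x / 2 := by
      have h2 : ∀ᶠ x : ℝ in atTop, (Real.log x) ^ 2 ≤ 1 / (2 * (64 / Real.log b)) * x := by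
        have h3 := (Real.isLittleO_pow_log_id_atTop (n := 2)).bound
          (show (0 : ℝ) < 1 / (2 * (64 / Real.log b)) by positivity)
        filter_upwards [h3, eventually_gt_atTop 0] with x hx hx0
        rw [Real.norm_eq_abs, Real.norm_eq_abs, abs_of_nonneg (by positivity)] at hx
        simpa [abs_of_pos hx0] using hx
      filter_upwards [h2, Real.tendsto_log_atTop.eventually_ge_atTop 1, eventually_gt_atTop 0]
        with x hx hx1 hx0
      have h4 : Real.log (Real.log x) ≤ Real.log x := by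
        have := Real.log_le_sub_one_of_pos (show 0 < Real.log x by linarith)
        linarith
      calc 64 / Real.log b * (Real.log x * Real.log (Real.log x)) ≤
            64 / Real.log b * (Real.log x * Real.log x) := by gcongr
        _ = 64 / Real.log b * (Real.log x) ^ 2 := by ring
        _ ≤ 64 / Real.log b * (1 / (2 * (64 / Real.log b)) * x) := by gcongr
        _ = x / 2 := by field_simp
    exact tendsto_natCast_atTop_atTop.eventually h1
  obtain ⟨P3, hP3⟩ := eventually_atTop.1 hgap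
  have hlarge : ∀ᶠ p : ℕ in atTop, |b0| * 2 / Real.log b < p :=
    tendsto_natCast_atTop_atTop.eventually_gt_atTop _
  obtain ⟨P4, hP4⟩ := eventually_atTop.1 hlarge
  refine ⟨2 * K1 + 4 * K2, by positivity, P1 + P2 + P3 + P4 + b + 3, fun p q hp hpq => ?_⟩
  have hp3 : (3 : ℝ) ≤ p := by exact_mod_cast (by omega : 3 ≤ p)
  have hp0 : (0 : ℝ) < p := by linarith
  have hpq' : (p : ℝ) < q := by exact_mod_cast hpq
  have hq0 : (0 : ℝ) < q := by linarith
  have hwp := wt_nonneg p
  have hwq := wt_nonneg q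
  rcases le_total q (2 * p) with hq2 | hq2
  · -- near pairs
    have hY : Real.log b / 2 * p ≤ Real.log b * p + b0 := by
      have h5 := hP4 p (by omega)
      rw [div_lt_iff₀ hlb] at h5
      have := neg_abs_le b0
      linarith
    have h5 := hP1 p (by omega) (q - p) (by omega) (Real.log b * p + b0) hY
    have hF : Measurable (fun y : ℝ => ff p y * ff (p + (q - p)) (y + (q - p : ℕ) * Real.log b) *
        dd (b ^ (q - p)) (NN (y + (q - p : ℕ) * Real.log b))) :=
      ((measurable_ff p).mul ((measurable_ff (p + (q - p))).comp (measurable_id.add_const _))).mul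
        ((measurable_from_nat (f := fun n : ℕ => dd (b ^ (q - p)) n)).comp
          (measurable_NN.comp (measurable_id.add_const _)))
    refine meas_le (f := fun t => ff p (Real.log b * p + t) *
      ff (p + (q - p)) ((Real.log b * p + t) + (q - p : ℕ) * Real.log b) *
      dd (b ^ (q - p)) (NN ((Real.log b * p + t) + (q - p : ℕ) * Real.log b)))
      (hF.comp (measurable_id.const_add _)) (fun t => ?_) (fun t => ?_)
      (fun t ht => Ev_near hb hpq.le (by omega) ht) ?_
    · exact mul_nonneg (mul_nonneg (ff_nonneg _ _) (ff_nonneg _ _)) (dd_nonneg _ _)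
    · exact mul_le_one₀ (mul_le_one₀ (ff_le_one _ _) (ff_nonneg _ _) (ff_le_one _ _)) (dd_nonneg _ _)
        (dd_le _ _)
    · rw [shift_window (fun y : ℝ => ff p y * ff (p + (q - p)) (y + (q - p : ℕ) * Real.log b) *
        dd (b ^ (q - p)) (NN (y + (q - p : ℕ) * Real.log b))) (Real.log b * p) b0]
      refine h5.trans ?_
      have hle : wt p ≤ 2 * wt q := by
        unfold wt
        have hq2' : (q : ℝ) ≤ 2 * p := by exact_mod_cast hq2
        have hlp : 0 ≤ Real.log p := Real.log_natCast_nonneg p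
        have hlpq : Real.log p ≤ Real.log q := Real.log_le_log hp0 hpq'.le
        have e : 2 * (Real.log q / q) = Real.log q / (q / 2) := by field_simp
        rw [e]
        exact div_le_div₀ (Real.log_natCast_nonneg q) hlpq (by positivity) (by linarith)
      calc K1 * (Real.log p / p) ^ 2 = K1 * (wt p * wt p) := by unfold wt; ring
        _ ≤ K1 * (wt p * (2 * wt q)) := by gcongr
        _ ≤ _ := by nlinarith [mul_nonneg hwp hwq]
  · -- distant pairs
    have hpq2 : 2 * (p : ℝ) ≤ q := by exact_mod_cast hq2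
    have h3 := h2 p q (by omega) (by omega) _ _ _ _ (Sh_lin _ _ _ p) (Sh_lin _ _ _ q) (by
      have := hP3 q (by omega)
      linarith) b0 (b0 + 1) le_rfl (by linarith) le_rfl
    refine meas_le (f := fun t => ff p (Real.log b * p + t) * ff q (Real.log b * q + t))
      (((measurable_ff p).comp (measurable_id.const_add _)).mul
        ((measurable_ff q).comp (measurable_id.const_add _))) (fun t => ?_) (fun t => ?_) (fun t ht => ?_) ?_
    · exact mul_nonneg (ff_nonneg _ _) (ff_nonneg _ _)
    · exact mul_le_one₀ (ff_le_one _ _) (ff_nonneg _ _) (ff_le_one _ _)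
    · obtain ⟨h5, h6, _⟩ := ht
      unfold ff
      rw [if_pos h5, if_pos h6]
      norm_num
    · refine h3.trans ?_
      have h6 : (b0 + 1 - b0) + 1 / (p : ℝ) ≤ 2 := by
        have : 1 / (p : ℝ) ≤ 1 := by rw [div_le_one (by linarith)]; linarith
        linarith
      have hlq : 0 ≤ Real.log q := Real.log_natCast_nonneg q
      have h7 : Real.log q / (q - p) ≤ 2 * wt q := by
        unfold wt
        calc Real.log q / (q - p) ≤ Real.log q / (q / 2) :=
              div_le_div_of_nonneg_left hlq (by positivity) (by linarith)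
          _ = _ := by field_simp
      have h8 : 0 ≤ Real.log q / (q - p) := div_nonneg hlq (by linarith)
      calc K2 * ((b0 + 1 - b0) + 1 / p) * (Real.log p / p) * (Real.log q / (q - p)) =
            K2 * ((b0 + 1 - b0) + 1 / p) * wt p * (Real.log q / (q - p)) := rfl
        _ ≤ K2 * 2 * wt p * (2 * wt q) := by gcongr
        _ ≤ _ := by nlinarith [mul_nonneg hwp hwq]

/-- all levels -/
lemma pair_all {b : ℕ} (hb : 2 ≤ b) (b0 : ℝ) : ∃ K : ℝ, 0 < K ∧ ∀ p q : ℕ, 2 ≤ p → p < q →
    (volume.restrict (Set.Ioc b0 (b0 + 1))) {t | Ev b p q t} ≤ ENNReal.ofReal (K * (wt p * wt q)) := by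
  have hlb : 0 < Real.log b := Real.log_pos (by exact_mod_cast hb)
  obtain ⟨K1, hK1, P1, h1⟩ := pair_large hb b0
  obtain ⟨K2, hK2, P2, hP23, h2⟩ := Pool.Agent.W66X.one_sh hlb b0
  have hl2 : 0 < Real.log 2 := Real.log_pos (by norm_num)
  set Q := P1 + P2 + 3 with hQ
  have hQ0 : (0 : ℝ) < Q := by exact_mod_cast (by omega : 0 < Q)
  set w0 := Real.log 2 / Q with hw0
  have hw0pos : 0 < w0 := by positivity
  have hlow : ∀ m : ℕ, 2 ≤ m → m ≤ Q → w0 ≤ wt m := by
    intro m hm hmQ
    have hm2 : (2 : ℝ) ≤ m := by exact_mod_cast hm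
    have hmQ' : (m : ℝ) ≤ Q := by exact_mod_cast hmQ
    unfold wt
    exact div_le_div₀ (Real.log_natCast_nonneg m) (Real.log_le_log (by norm_num) hm2) (by linarith) hmQ'
  refine ⟨K1 + K2 / w0 + 1 / (w0 * w0), by positivity, fun p q hp hpq => ?_⟩
  have hwp := wt_nonneg p
  have hwq := wt_nonneg q
  have hww := mul_nonneg hwp hwq
  have hKw : 0 ≤ K2 / w0 := by positivity
  have hKw2 : 0 ≤ 1 / (w0 * w0) := by positivity
  by_cases hpP : P1 ≤ p
  · refine (h1 p q hpP hpq).trans (ENNReal.ofReal_le_ofReal ?_)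
    nlinarith [mul_nonneg hKw hww, mul_nonneg hKw2 hww]
  · have hw : w0 ≤ wt p := hlow p hp (by omega)
    by_cases hqP : P2 ≤ q
    · obtain ⟨_, h3, _⟩ := h2 q hqP _ _ (Sh_lin _ _ _ q)
      have h4 : (volume.restrict (Set.Ioc b0 (b0 + 1))) {t | Ev b p q t} ≤
          ENNReal.ofReal (K2 * (Real.log q / q)) := by
        refine meas_le (f := fun t => ff q (Real.log b * q + t))
          ((measurable_ff q).comp (measurable_id.const_add _)) (fun t => ff_nonneg _ _)
          (fun t => ff_le_one _ _) (fun t ht => ?_) h3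
        obtain ⟨_, h6, _⟩ := ht
        unfold ff
        rw [if_pos h6]
      refine h4.trans (ENNReal.ofReal_le_ofReal ?_)
      have h5 : K2 * (Real.log q / q) ≤ K2 / w0 * (wt p * wt q) := by
        have e : K2 * (Real.log q / q) = K2 / w0 * (w0 * wt q) := by
          unfold wt
          field_simp
        rw [e]
        gcongr
      nlinarith [mul_nonneg hK1.le hww, mul_nonneg hKw2 hww]
    · have hw' : w0 ≤ wt q := hlow q (by omega) (by omega)
      have h4 : (volume.restrict (Set.Ioc b0 (b0 + 1))) {t | Ev b p q t} ≤ ENNReal.ofReal 1 := by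
        refine (measure_mono (Set.subset_univ _)).trans ?_
        rw [Measure.restrict_apply_univ, Real.volume_Ioc]
        simp
      refine h4.trans (ENNReal.ofReal_le_ofReal ?_)
      have h5 : 1 ≤ 1 / (w0 * w0) * (wt p * wt q) := by
        rw [div_mul_eq_mul_div, one_mul, le_div_iff₀ (by positivity), one_mul]
        gcongr
      nlinarith [mul_nonneg hK1.le hww, mul_nonneg hKw hww]

/-- the value at the level `p` -/
noncomputable def val (b : ℕ) (β : ℝ) (p : ℕ) : ℕ := roughPart p (⌈β * (b : ℝ) ^ p⌉₊ - 1)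

lemma val_exp {b : ℕ} (hb : 2 ≤ b) (t : ℝ) (p : ℕ) :
    val b (Real.exp t) p = roughPart p (NN (Real.log b * p + t)) := by
  have hb0 : (0 : ℝ) < b := by positivity
  unfold val NN
  congr 3
  rw [Real.exp_add, mul_comm (Real.log b), Real.exp_nat_mul, Real.exp_log hb0, mul_comm]

/-- **Finitely many pairs with different prime values.** -/
theorem ae_pairs {b : ℕ} (hb : 2 ≤ b) (R : Set (ℕ × ℕ)) (hR : ∀ x ∈ R, 2 ≤ x.1 ∧ x.1 < x.2)
    (hs : Summable fun x : R => wt x.1.1 * wt x.1.2) : ∀ᵐ β : ℝ, 0 < β →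
      {x ∈ R | (val b β x.1).Prime ∧ (val b β x.2).Prime ∧ val b β x.1 ≠ val b β x.2}.Finite := by
  refine Pool.Agent.W66X.ae_of_exp' (P := fun β : ℝ =>
    {x ∈ R | (val b β x.1).Prime ∧ (val b β x.2).Prime ∧ val b β x.1 ≠ val b β x.2}.Finite)
    (Pool.Agent.TH888.R.ae_windows fun b0 => ?_)
  obtain ⟨K, hK, h⟩ := pair_all hb b0
  have htop : ∑' x : R, (volume.restrict (Set.Ioc b0 (b0 + 1))) {t | Ev b x.1.1 x.1.2 t} ≠ ⊤ := by
    refine ne_top_of_le_ne_top ?_ (ENNReal.tsum_le_tsum fun x : R => h x.1.1 x.1.2 (hR x.1 x.2).1 (hR x.1 x.2).2)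
    rw [← ENNReal.ofReal_tsum_of_nonneg (fun x => mul_nonneg hK.le (mul_nonneg (wt_nonneg _) (wt_nonneg _)))
      (hs.mul_left K)]
    exact ENNReal.ofReal_ne_top
  filter_upwards [ae_finite_setOfPred_mem htop] with t ht
  have h1 := ht.image (fun x : R => x.1)
  refine h1.subset ?_
  rintro x ⟨hx, h2, h3, h4⟩
  rw [val_exp hb, val_exp hb] at h4
  rw [val_exp hb] at h2 h3
  exact ⟨⟨x, hx⟩, ⟨h2, h3, h4⟩, rfl⟩

end Pool.Agent.Q43.PR
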