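import Mathlib
import Pool.Agent.TH888.R.Inv

set_option autoImplicit false

/-!
# Sums over primes and over pairs of primes
-/

namespace Pool.Agent.Q43.PR

open Finset Filter Topology
open Pool.Agent.W66S (count_primes)
open Pool.Agent.TH888.R (wt wt_nonneg)

/-- the sum of `1 / (q (log q) ^ ε)` over the primes is bounded -/
lemma inv_log_sum_eps {ε : ℝ} (hε : 0 < ε) : ∃ C : ℝ, 0 < C ∧ ∀ T : Finset ℕ, (∀ q ∈ T, q.Prime) →
    ∑ q ∈ T, 1 / ((q : ℝ) * Real.log q ^ ε) ≤ C := by
  obtain ⟨C, hC, h⟩ := count_primes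
  have hl2 : 0 < Real.log 2 := Real.log_pos (by norm_num)
  have hsum : Summable (fun k : ℕ => 1 / (k : ℝ) ^ (1 + ε)) :=
    Real.summable_one_div_nat_rpow.2 (by linarith)
  refine ⟨2 * C / (Real.log 2 * Real.log 2 ^ ε) * (∑' k : ℕ, 1 / (k : ℝ) ^ (1 + ε)) + 1, by positivity,
    fun T hT => ?_⟩
  classical
  set M := T.sup id + 1 with hM
  have hmap : ∀ q ∈ T, Nat.log 2 q ∈ Ico 1 (M + 1) := by
    intro q hq
    rw [mem_Ico]
    have h2 : 2 ≤ q := (hT q hq).two_le
    have h3 : q ≤ T.sup id := Finset.le_sup (f := id) hq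
    refine ⟨Nat.log_pos (by norm_num) h2, ?_⟩
    have := Nat.log_le_self 2 q
    omega
  rw [← Finset.sum_fiberwise_of_maps_to hmap]
  have hk : ∀ k ∈ Ico 1 (M + 1), ∑ q ∈ T.filter (fun q => Nat.log 2 q = k), 1 / ((q : ℝ) * Real.log q ^ ε) ≤
      2 * C / (Real.log 2 * Real.log 2 ^ ε) * (1 / (k : ℝ) ^ (1 + ε)) := by
    intro k hk
    rw [mem_Ico] at hk
    have hk0 : (1 : ℝ) ≤ k := by exact_mod_cast hk.1
    have hkpos : (0 : ℝ) < k := by linarith
    set D := T.filter (fun q => Nat.log 2 q = k) with hD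
    have hDm : ∀ q ∈ D, q.Prime ∧ 2 ^ k ≤ q ∧ q < 2 ^ (k + 1) := by
      intro q hq
      rw [hD, mem_filter] at hq
      have hp := hT q hq.1
      refine ⟨hp, ?_, ?_⟩
      · rw [← hq.2]; exact Nat.pow_log_le_self 2 hp.ne_zero
      · rw [← hq.2]; exact Nat.lt_pow_succ_log_self (by norm_num) q
    have hcard := h (2 ^ (k + 1)) (by
      calc 2 = 2 ^ 1 := by norm_num
        _ ≤ 2 ^ (k + 1) := Nat.pow_le_pow_right (by norm_num) (by omega)) D
      (fun q hq => ⟨(hDm q hq).1, (hDm q hq).2.2⟩)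
    have hpt : ∀ q ∈ D, 1 / ((q : ℝ) * Real.log q ^ ε) ≤ 1 / ((2 : ℝ) ^ k * (k * Real.log 2) ^ ε) := by
      intro q hq
      have h1 : ((2 : ℝ) ^ k) ≤ q := by exact_mod_cast (hDm q hq).2.1
      have h2 : (k : ℝ) * Real.log 2 ≤ Real.log q := by
        rw [← Real.log_pow]
        exact Real.log_le_log (by positivity) h1
      have h3 : 0 < (k : ℝ) * Real.log 2 := by positivity
      apply one_div_le_one_div_of_le (by positivity)
      gcongr
    calc ∑ q ∈ D, 1 / ((q : ℝ) * Real.log q ^ ε) ≤ ∑ q ∈ D, 1 / ((2 : ℝ) ^ k * (k * Real.log 2) ^ ε) :=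
          Finset.sum_le_sum hpt
      _ = D.card * (1 / ((2 : ℝ) ^ k * (k * Real.log 2) ^ ε)) := by rw [Finset.sum_const, nsmul_eq_mul]
      _ ≤ (C * (((2 ^ (k + 1) : ℕ) : ℝ) / Real.log ((2 ^ (k + 1) : ℕ) : ℝ))) *
          (1 / ((2 : ℝ) ^ k * (k * Real.log 2) ^ ε)) := by
          refine mul_le_mul_of_nonneg_right ?_ (by positivity)
          rw [← mul_div_assoc]
          exact hcard
      _ ≤ _ := by
          have e1 : Real.log ((2 ^ (k + 1) : ℕ) : ℝ) = (k + 1) * Real.log 2 := by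
            push_cast
            rw [Real.log_pow]
            push_cast
            ring
          rw [e1]
          have e2 : ((k : ℝ) * Real.log 2) ^ ε = (k : ℝ) ^ ε * Real.log 2 ^ ε :=
            Real.mul_rpow hkpos.le hl2.le
          rw [e2, Real.rpow_add hkpos, Real.rpow_one]
          push_cast
          have e3 : C * ((2 : ℝ) ^ (k + 1) / ((k + 1) * Real.log 2)) * (1 / (2 ^ k * ((k : ℝ) ^ ε * Real.log 2 ^ ε))) =
              2 * C / (Real.log 2 * Real.log 2 ^ ε) * (1 / ((k + 1) * (k : ℝ) ^ ε)) := by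
            rw [pow_succ]
            field_simp
          rw [e3]
          gcongr
          linarith
  calc _ ≤ ∑ k ∈ Ico 1 (M + 1), 2 * C / (Real.log 2 * Real.log 2 ^ ε) * (1 / (k : ℝ) ^ (1 + ε)) :=
        Finset.sum_le_sum hk
    _ = 2 * C / (Real.log 2 * Real.log 2 ^ ε) * ∑ k ∈ Ico 1 (M + 1), (1 / (k : ℝ) ^ (1 + ε)) := by
        rw [Finset.mul_sum]
    _ ≤ 2 * C / (Real.log 2 * Real.log 2 ^ ε) * ∑' k : ℕ, 1 / (k : ℝ) ^ (1 + ε) := by
        gcongr
        exact hsum.sum_le_tsum _ fun k _ => by positivity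
    _ ≤ _ := by linarith

/-- the pairs of primes `p < q ≤ p + p / (log p) ^ (1 + ε)` have bounded total weight -/
lemma pairs_sum {ε : ℝ} (hε : 0 < ε) : ∃ C : ℝ, ∀ T : Finset (ℕ × ℕ),
    (∀ x ∈ T, x.1.Prime ∧ x.2.Prime ∧ x.1 < x.2 ∧
      (x.2 : ℝ) ≤ x.1 + x.1 / Real.log x.1 ^ (1 + ε)) → ∑ x ∈ T, wt x.1 * wt x.2 ≤ C := by
  classical
  obtain ⟨C0, hC0, hBT⟩ := Pool.Agent.Helper601.brun_titchmarsh
  obtain ⟨C1, hC1, hS⟩ := inv_log_sum_eps hε
  have hlim : ∀ᶠ x : ℝ in atTop, Real.log x ^ (1 + ε) ≤ 1 / 4 * x ^ ((1 : ℝ) / 2) := by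
    have h1 := (isLittleO_log_rpow_rpow_atTop (1 + ε) (show (0 : ℝ) < 1 / 2 by norm_num)).bound
      (show (0 : ℝ) < 1 / 4 by norm_num)
    filter_upwards [h1, eventually_ge_atTop 1] with x hx hx1
    rw [Real.norm_eq_abs, Real.norm_eq_abs, abs_of_nonneg (Real.rpow_nonneg (Real.log_nonneg hx1) _),
      abs_of_nonneg (by positivity)] at hx
    exact hx
  obtain ⟨P0, hP0⟩ := (tendsto_natCast_atTop_atTop.eventually (hlim.and
    (eventually_ge_atTop (3 : ℝ)))).exists_forall_of_atTop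
  obtain ⟨Q0, hQ0⟩ : ∃ Q0 : ℕ, ∀ p : ℕ, p < P0 → (p : ℝ) + p / Real.log p ^ (1 + ε) ≤ Q0 := by
    have : ∀ p : ℕ, ∃ n : ℕ, (p : ℝ) + p / Real.log p ^ (1 + ε) ≤ n := fun p => exists_nat_ge _
    choose f hf using this
    refine ⟨∑ p ∈ range P0, f p, fun p hp => (hf p).trans ?_⟩
    exact_mod_cast Finset.single_le_sum (f := f) (fun _ _ => Nat.zero_le _) (mem_range.2 hp)
  refine ⟨((P0 * (Q0 + 1) : ℕ) : ℝ) + 8 * C0 * C1, fun T hT => ?_⟩
  rw [← Finset.sum_filter_add_sum_filter_not T (fun x => x.1 < P0)]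
  refine add_le_add ?_ ?_
  · have hsub : T.filter (fun x => x.1 < P0) ⊆ range P0 ×ˢ range (Q0 + 1) := by
      intro x hx
      rw [mem_filter] at hx
      obtain ⟨_, _, _, h4⟩ := hT x hx.1
      rw [mem_product, mem_range, mem_range]
      refine ⟨hx.2, ?_⟩
      have := h4.trans (hQ0 x.1 hx.2)
      have : x.2 ≤ Q0 := by exact_mod_cast this
      omega
    calc ∑ x ∈ T.filter (fun x => x.1 < P0), wt x.1 * wt x.2 ≤
          ∑ x ∈ T.filter (fun x => x.1 < P0), (1 : ℝ) := by
          refine Finset.sum_le_sum fun x _ => ?_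
          exact mul_le_one₀ (Pool.Agent.TH888.R.wt_le_one _) (wt_nonneg _) (Pool.Agent.TH888.R.wt_le_one _)
      _ = ((T.filter (fun x => x.1 < P0)).card : ℝ) := by simp
      _ ≤ _ := by
          have := Finset.card_le_card hsub
          rw [card_product, card_range, card_range] at this
          exact_mod_cast this
  · set T' := T.filter (fun x => ¬ x.1 < P0) with hT'
    have hmaps : ∀ x ∈ T', x.1 ∈ T'.image Prod.fst := fun x hx => mem_image_of_mem _ hx
    rw [← Finset.sum_fiberwise_of_maps_to hmaps]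
    have hin : ∀ p ∈ T'.image Prod.fst, ∑ x ∈ T'.filter (fun x => x.1 = p), wt x.1 * wt x.2 ≤
        8 * C0 * (1 / ((p : ℝ) * Real.log p ^ ε)) := by
      intro p hp
      obtain ⟨x0, hx0, rfl⟩ := mem_image.1 hp
      rw [hT', mem_filter] at hx0
      set p := x0.1 with hpdef
      obtain ⟨hlg, hp3⟩ := hP0 p (by omega)
      have hp0 : (0 : ℝ) < p := by linarith
      have hpl : 1 < Real.log p := by
        rw [Real.lt_log_iff_exp_lt hp0]
        have := Real.exp_one_lt_d9
        linarith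
      have hpl0 : 0 < Real.log p := by linarith
      set H : ℝ := (p : ℝ) / Real.log p ^ (1 + ε) with hH
      have hsq : (p : ℝ) ^ ((1 : ℝ) / 2) * (p : ℝ) ^ ((1 : ℝ) / 2) = p := by
        rw [← Real.rpow_add hp0]
        norm_num
      have hsqpos : 0 < (p : ℝ) ^ ((1 : ℝ) / 2) := by positivity
      have hsq1 : 1 ≤ (p : ℝ) ^ ((1 : ℝ) / 2) := Real.one_le_rpow (by linarith) (by norm_num)
      have hHlow : 4 * (p : ℝ) ^ ((1 : ℝ) / 2) ≤ H := by
        rw [hH, le_div_iff₀ (by positivity)]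
        calc 4 * (p : ℝ) ^ ((1 : ℝ) / 2) * Real.log p ^ (1 + ε) ≤
              4 * (p : ℝ) ^ ((1 : ℝ) / 2) * (1 / 4 * (p : ℝ) ^ ((1 : ℝ) / 2)) := by gcongr
          _ = (p : ℝ) ^ ((1 : ℝ) / 2) * (p : ℝ) ^ ((1 : ℝ) / 2) := by ring
          _ = p := hsq
      have hHp : H ≤ p := by
        rw [hH, div_le_iff₀ (by positivity)]
        have : 1 ≤ Real.log p ^ (1 + ε) := Real.one_le_rpow hpl.le (by linarith)
        nlinarith
      set N := ⌊H⌋₊ with hN
      have hNle : (N : ℝ) ≤ H := Nat.floor_le (by linarith)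
      have hNgt : H < N + 1 := Nat.lt_floor_add_one _
      have hNsq : (p : ℝ) ^ ((1 : ℝ) / 2) ≤ N := by linarith
      have hN2 : 2 ≤ N := by
        have : (2 : ℝ) ≤ N := by linarith
        exact_mod_cast this
      have hcard : ((T'.filter (fun x => x.1 = p)).card : ℝ) ≤ C0 * N / Real.log N := by
        refine le_trans ?_ (hBT (p + 1) 1 N hN2 (Or.inl rfl))
        have hinj : Set.InjOn (fun x : ℕ × ℕ => x.2 - (p + 1)) (T'.filter (fun x => x.1 = p) : Set (ℕ × ℕ)) := by
          rintro ⟨a, b⟩ hx ⟨c, d⟩ hy hxy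
          rw [Finset.mem_coe, mem_filter, hT', mem_filter] at hx hy
          have h1 := (hT _ hx.1.1).2.2.1
          have h2 := (hT _ hy.1.1).2.2.1
          simp only at h1 h2 hxy hx hy
          have : b = d := by omega
          rw [this, hx.2, hy.2]
        rw [← Finset.card_image_of_injOn hinj]
        have hsub : (T'.filter (fun x => x.1 = p)).image (fun x : ℕ × ℕ => x.2 - (p + 1)) ⊆
            (Finset.range N).filter (fun k => (p + 1 + k * 1).Prime) := by
          intro k hk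
          obtain ⟨x, hx, rfl⟩ := mem_image.1 hk
          rw [mem_filter, hT', mem_filter] at hx
          obtain ⟨h1, h2, h3, h4⟩ := hT x hx.1.1
          rw [hx.2] at h3 h4
          have h5 : ((x.2 - p : ℕ) : ℝ) ≤ H := by
            rw [Nat.cast_sub h3.le]
            linarith
          have h6 : x.2 - p ≤ N := Nat.le_floor h5
          rw [mem_filter, mem_range]
          refine ⟨by omega, ?_⟩
          have e : p + 1 + (x.2 - (p + 1)) * 1 = x.2 := by omega
          rw [e]
          exact h2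
        exact_mod_cast Finset.card_le_card hsub
      have hlN : Real.log p / 2 ≤ Real.log N := by
        have h1 : Real.log ((p : ℝ) ^ ((1 : ℝ) / 2)) ≤ Real.log N := Real.log_le_log hsqpos hNsq
        rw [Real.log_rpow hp0] at h1
        linarith
      have hcard2 : ((T'.filter (fun x => x.1 = p)).card : ℝ) ≤ 2 * C0 * (H / Real.log p) := by
        refine hcard.trans ?_
        calc C0 * N / Real.log N ≤ C0 * H / (Real.log p / 2) := by gcongr
          _ = _ := by field_simp
      have hterm : ∀ x ∈ T'.filter (fun x => x.1 = p), wt x.1 * wt x.2 ≤ wt p * (2 * wt p) := by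
        intro x hx
        rw [mem_filter, hT', mem_filter] at hx
        obtain ⟨h1, h2, h3, h4⟩ := hT x hx.1.1
        rw [hx.2] at h3 h4 ⊢
        refine mul_le_mul_of_nonneg_left ?_ (wt_nonneg _)
        have hq2 : (x.2 : ℝ) ≤ p * p := by nlinarith
        have hpq : (p : ℝ) ≤ x.2 := by exact_mod_cast h3.le
        have hlq : Real.log x.2 ≤ 2 * Real.log p := by
          calc Real.log x.2 ≤ Real.log (p * p) := Real.log_le_log (by linarith) hq2
            _ = 2 * Real.log p := by rw [Real.log_mul hp0.ne' hp0.ne']; ring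
        unfold wt
        calc Real.log x.2 / x.2 ≤ (2 * Real.log p) / p := div_le_div₀ (by positivity) hlq hp0 hpq
          _ = _ := by ring
      calc ∑ x ∈ T'.filter (fun x => x.1 = p), wt x.1 * wt x.2 ≤
            ∑ x ∈ T'.filter (fun x => x.1 = p), wt p * (2 * wt p) := Finset.sum_le_sum hterm
        _ = (T'.filter (fun x => x.1 = p)).card * (wt p * (2 * wt p)) := by
            rw [Finset.sum_const, nsmul_eq_mul]
        _ ≤ (2 * C0 * (H / Real.log p)) * (wt p * (2 * wt p)) := by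
            have := wt_nonneg p
            gcongr
        _ = 4 * C0 * (1 / ((p : ℝ) * Real.log p ^ ε)) := by
            rw [hH, Real.rpow_add hpl0, Real.rpow_one]
            unfold wt
            field_simp
            ring
        _ ≤ 8 * C0 * (1 / ((p : ℝ) * Real.log p ^ ε)) := by
            gcongr
            linarith
    calc _ ≤ ∑ p ∈ T'.image Prod.fst, 8 * C0 * (1 / ((p : ℝ) * Real.log p ^ ε)) := Finset.sum_le_sum hin
      _ = 8 * C0 * ∑ p ∈ T'.image Prod.fst, (1 / ((p : ℝ) * Real.log p ^ ε)) := by rw [Finset.mul_sum]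
      _ ≤ 8 * C0 * C1 := by
          gcongr
          refine hS _ fun q hq => ?_
          obtain ⟨x, hx, rfl⟩ := mem_image.1 hq
          exact (hT x (mem_filter.1 hx).1).1

end Pool.Agent.Q43.PR
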