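import Mathlib
import Pool.Agent.Q43.PR.Pair
import Pool.Agent.Q43.PR.Sums

set_option autoImplicit false

/-!
# Consequences: gaps and pairs `(p, φ p)`
-/

namespace Pool.Agent.Q43.PR

open Finset Filter Topology MeasureTheory
open Pool.Agent.TH888.R (wt wt_nonneg wt_le_one)

/-- different prime values are at distance more than `p / (log p) ^ (1 + ε)` -/
theorem ae_gaps {b : ℕ} (hb : 2 ≤ b) : ∀ᵐ β : ℝ, 0 < β → ∀ ε : ℝ, 0 < ε → ∃ P : ℕ, ∀ p q : ℕ, P ≤ p →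
    p < q → p.Prime → q.Prime → (val b β p).Prime → (val b β q).Prime → val b β p ≠ val b β q →
    (p : ℝ) + p / Real.log p ^ (1 + ε) < q := by
  set R : ℕ → Set (ℕ × ℕ) := fun n => {x | x.1.Prime ∧ x.2.Prime ∧ x.1 < x.2 ∧
    (x.2 : ℝ) ≤ x.1 + x.1 / Real.log x.1 ^ (1 + 1 / ((n : ℝ) + 1))} with hR
  have hsum : ∀ n, Summable fun x : R n => wt x.1.1 * wt x.1.2 := by
    intro n
    obtain ⟨C, hC⟩ := pairs_sum (ε := 1 / ((n : ℝ) + 1)) (by positivity)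
    refine summable_of_sum_le (c := C) (fun x => mul_nonneg (wt_nonneg _) (wt_nonneg _)) fun u => ?_
    have h1 := hC (u.map ⟨Subtype.val, Subtype.val_injective⟩) (by
      intro x hx
      rw [Finset.mem_map] at hx
      obtain ⟨y, _, rfl⟩ := hx
      exact y.2)
    rw [Finset.sum_map] at h1
    exact h1
  have h : ∀ᵐ β : ℝ, ∀ n : ℕ, 0 < β → {x ∈ R n | (val b β x.1).Prime ∧ (val b β x.2).Prime ∧
      val b β x.1 ≠ val b β x.2}.Finite := by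
    rw [ae_all_iff]
    intro n
    exact ae_pairs hb (R n) (fun x hx => ⟨hx.1.two_le, hx.2.2.1⟩) (hsum n)
  filter_upwards [h] with β hβ h0 ε hε
  obtain ⟨n, hn⟩ := exists_nat_one_div_lt hε
  obtain ⟨B, hB⟩ := ((hβ n h0).image Prod.fst).bddAbove
  refine ⟨B + 3, fun p q hp hpq h1 h2 h3 h4 h5 => ?_⟩
  by_contra hcon
  push Not at hcon
  have hp3 : (3 : ℝ) ≤ p := by exact_mod_cast (by omega : 3 ≤ p)
  have hpl : 1 ≤ Real.log p := by
    rw [Real.le_log_iff_exp_le (by linarith)]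
    have := Real.exp_one_lt_d9
    linarith
  have hmem : (p, q) ∈ R n := by
    refine ⟨h1, h2, hpq, hcon.trans ?_⟩
    have h6 : Real.log p ^ (1 + 1 / ((n : ℝ) + 1)) ≤ Real.log p ^ (1 + ε) :=
      Real.rpow_le_rpow_of_exponent_le hpl (by linarith)
    show (p : ℝ) + p / Real.log p ^ (1 + ε) ≤ p + p / Real.log p ^ (1 + 1 / ((n : ℝ) + 1))
    gcongr
  have h7 : p ≤ B := hB ⟨(p, q), ⟨hmem, h3, h4, h5⟩, rfl⟩
  omega

/-- pairs `(p, φ p)` -/
theorem ae_graph {b : ℕ} (hb : 2 ≤ b) (φ : ℕ → ℕ) : ∀ᵐ β : ℝ, 0 < β →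
    {p : ℕ | p.Prime ∧ (φ p).Prime ∧ p < φ p ∧ (val b β p).Prime ∧ (val b β (φ p)).Prime ∧
      val b β p ≠ val b β (φ p)}.Finite := by
  set R : Set (ℕ × ℕ) := {x | x.1.Prime ∧ x.2.Prime ∧ x.1 < x.2 ∧ x.2 = φ x.1} with hR
  have hsum : Summable fun x : R => wt x.1.1 * wt x.1.2 := by
    have hs : Summable (fun n : ℕ => 16 * (1 / (n : ℝ) ^ ((3 : ℝ) / 2))) :=
      (Real.summable_one_div_nat_rpow.2 (by norm_num)).mul_left 16
    have hinj : Function.Injective (fun x : R => x.1.1) := by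
      rintro ⟨⟨a, c⟩, hx⟩ ⟨⟨a', c'⟩, hy⟩ hxy
      simp only at hxy
      have h1 := hx.2.2.2
      have h2 := hy.2.2.2
      simp only at h1 h2
      subst hxy
      rw [← h2] at h1
      subst h1
      rfl
    refine (hs.comp_injective hinj).of_nonneg_of_le (fun x => mul_nonneg (wt_nonneg _) (wt_nonneg _)) ?_
    rintro ⟨⟨p, q⟩, hx⟩
    obtain ⟨h1, h2, h3, _⟩ := hx
    simp only at h1 h2 h3
    have hp2 : (2 : ℝ) ≤ p := by exact_mod_cast h1.two_le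
    have hpq : (p : ℝ) ≤ q := by exact_mod_cast h3.le
    have hw : ∀ m : ℕ, (2 : ℝ) ≤ m → (p : ℝ) ≤ m → wt m ≤ 4 * (1 / (p : ℝ) ^ ((3 : ℝ) / 4)) := by
      intro m hm hpm
      have hm0 : (0 : ℝ) < m := by linarith
      have hlog : Real.log m ≤ 4 * (m : ℝ) ^ ((1 : ℝ) / 4) := by
        have h5 := Real.log_le_rpow_div hm0.le (show (0 : ℝ) < 1 / 4 by norm_num)
        linarith
      have e : (m : ℝ) = (m : ℝ) ^ ((1 : ℝ) / 4) * (m : ℝ) ^ ((3 : ℝ) / 4) := by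
        rw [← Real.rpow_add hm0]
        norm_num
      have h6 : wt m ≤ 4 * (1 / (m : ℝ) ^ ((3 : ℝ) / 4)) := by
        unfold wt
        rw [div_le_iff₀ hm0]
        calc Real.log m ≤ 4 * (m : ℝ) ^ ((1 : ℝ) / 4) := hlog
          _ = 4 * (1 / (m : ℝ) ^ ((3 : ℝ) / 4)) * ((m : ℝ) ^ ((1 : ℝ) / 4) * (m : ℝ) ^ ((3 : ℝ) / 4)) := by
              field_simp
          _ = _ := by rw [← e]
      refine h6.trans ?_
      gcongr
    have h7 := hw p hp2 le_rfl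
    have h8 := hw q (hp2.trans hpq) hpq
    show wt p * wt q ≤ 16 * (1 / (p : ℝ) ^ ((3 : ℝ) / 2))
    have hp0 : (0 : ℝ) < p := by linarith
    calc wt p * wt q ≤ (4 * (1 / (p : ℝ) ^ ((3 : ℝ) / 4))) * (4 * (1 / (p : ℝ) ^ ((3 : ℝ) / 4))) :=
          mul_le_mul h7 h8 (wt_nonneg _) (by positivity)
      _ = 16 * (1 / ((p : ℝ) ^ ((3 : ℝ) / 4) * (p : ℝ) ^ ((3 : ℝ) / 4))) := by field_simp; norm_num
      _ = _ := by
          rw [← Real.rpow_add hp0]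
          norm_num
  filter_upwards [ae_pairs hb R (fun x hx => ⟨hx.1.two_le, hx.2.2.1⟩) hsum] with β hβ h0
  refine ((hβ h0).image Prod.fst).subset ?_
  rintro p ⟨h1, h2, h3, h4, h5, h6⟩
  exact ⟨(p, φ p), ⟨⟨h1, h2, h3, rfl⟩, h4, h5, h6⟩, rfl⟩

end Pool.Agent.Q43.PR
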